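import Pool.Agent.H92.Arthur.Dec

/-!
# The closed algebra generated by commuting operators; uniqueness of decompositions
-/

open WeakDual
open scoped InnerProductSpace NNReal

namespace Pool.Agent.H92.Arthur

variable {H : Type} [NormedAddCommGroup H] [InnerProductSpace ℂ H] [CompleteSpace H]

/-- the norm-closed star algebra generated by the operators `τ j` -/
noncomputable abbrev Alg {J : Type} (τ : J → H →L[ℂ] H) : StarSubalgebra ℂ (H →L[ℂ] H) :=
  (StarAlgebra.adjoin ℂ (Set.range τ)).topologicalClosure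

/-- commuting operators, closed under adjoints -/
structure Good {J : Type} (τ : J → H →L[ℂ] H) : Prop where
  adj : ∀ j, ∃ j', τ j' = ContinuousLinearMap.adjoint (τ j)
  comm : ∀ i j, τ i * τ j = τ j * τ i

theorem alg_comm {J : Type} {τ : J → H →L[ℂ] H} (h : Good τ) (a b : Alg τ) : a * b = b * a := by
  have h1 : IsMulCommutative (StarAlgebra.adjoin ℂ (Set.range τ)) := by
    refine StarAlgebra.isMulCommutative_adjoin ℂ ?_ ?_
    · rintro _ ⟨i, rfl⟩ _ ⟨j, rfl⟩
      exact h.comm i j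
    · rintro _ ⟨i, rfl⟩ _ ⟨j, rfl⟩
      obtain ⟨j', hj'⟩ := h.adj j
      rw [ContinuousLinearMap.star_eq_adjoint, ← hj']
      exact h.comm i j'
  exact (StarSubalgebra.commRingTopologicalClosure (StarAlgebra.adjoin ℂ (Set.range τ))
    (fun x y => h1.is_comm.comm x y)).mul_comm a b

theorem exists_rep {J : Type} {τ : J → H →L[ℂ] H} (h : Good τ) :
    ∃ (A : Type) (_ : CommCStarAlgebra A) (π : A →⋆ₐ[ℂ] (H →L[ℂ] H)) (t : J → A),
      (∀ a : A, IsUnit (π a) → IsUnit a) ∧ (∀ j, π (t j) = τ j) ∧ (∀ a : A, π a ∈ Alg τ) ∧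
        Function.Injective π := by
  have hcl : IsClosed ((Alg τ : StarSubalgebra ℂ (H →L[ℂ] H)) : Set (H →L[ℂ] H)) :=
    StarSubalgebra.isClosed_topologicalClosure _
  let _ : CStarAlgebra (Alg τ) := StarSubalgebra.cstarAlgebra (Alg τ)
  let inst : CommCStarAlgebra (Alg τ) :=
    { (inferInstance : CStarAlgebra (Alg τ)) with
      mul_comm := alg_comm h }
  refine ⟨Alg τ, inst, (Alg τ).subtype, fun j => ⟨τ j, ?_⟩, fun a ha => ?_, fun j => rfl,
    fun a => a.2, Subtype.val_injective⟩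
  · exact StarSubalgebra.le_topologicalClosure _ (StarAlgebra.subset_adjoin ℂ _ ⟨j, rfl⟩)
  · exact (StarSubalgebra.coe_isUnit (Alg τ)).mp ha

/-- Closed invariant subspaces are invariant under the closed algebra. -/
theorem invariant_alg {J : Type} {τ : J → H →L[ℂ] H} (h : Good τ) {K : Submodule ℂ H}
    (hK : IsClosed (K : Set H)) (hinv : ∀ j, ∀ f ∈ K, τ j f ∈ K) {a : H →L[ℂ] H}
    (ha : a ∈ Alg τ) : ∀ f ∈ K, a f ∈ K := by
  have h1 : ∀ b ∈ StarAlgebra.adjoin ℂ (Set.range τ),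
      (∀ f ∈ K, b f ∈ K) ∧ ∀ f ∈ K, (star b) f ∈ K := by
    intro b hb
    induction hb using StarAlgebra.adjoin_induction with
    | mem b hb =>
      obtain ⟨j, rfl⟩ := hb
      refine ⟨hinv j, ?_⟩
      obtain ⟨j', hj'⟩ := h.adj j
      rw [ContinuousLinearMap.star_eq_adjoint, ← hj']
      exact hinv j'
    | algebraMap c =>
      refine ⟨fun f hf => K.smul_mem c hf, fun f hf => ?_⟩
      rw [← algebraMap_star_comm]
      exact K.smul_mem (star c) hf
    | add x y _ _ hx hy =>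
      refine ⟨fun f hf => K.add_mem (hx.1 f hf) (hy.1 f hf), fun f hf => ?_⟩
      rw [star_add]
      exact K.add_mem (hx.2 f hf) (hy.2 f hf)
    | mul x y _ _ hx hy =>
      refine ⟨fun f hf => hx.1 _ (hy.1 f hf), fun f hf => ?_⟩
      rw [star_mul]
      exact hy.2 _ (hx.2 f hf)
    | star x _ hx =>
      refine ⟨hx.2, ?_⟩
      rw [star_star]
      exact hx.1
  have h2 : IsClosed {b : H →L[ℂ] H | ∀ f ∈ K, b f ∈ K} := by
    have : {b : H →L[ℂ] H | ∀ f ∈ K, b f ∈ K} =
        ⋂ f ∈ K, (fun b : H →L[ℂ] H => b f) ⁻¹' (K : Set H) := by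
      ext b; simp
    rw [this]
    exact isClosed_biInter fun f _ =>
      hK.preimage (ContinuousLinearMap.apply ℂ H f).continuous
  have h3 : closure ((StarAlgebra.adjoin ℂ (Set.range τ) : StarSubalgebra ℂ (H →L[ℂ] H)) :
      Set (H →L[ℂ] H)) ⊆ {b : H →L[ℂ] H | ∀ f ∈ K, b f ∈ K} :=
    closure_minimal (fun b hb => (h1 b hb).1) h2
  exact h3 ha

/-- Nonzero closed invariant subspaces have approximate joint eigenvalues. -/
theorem exists_approx {J : Type} {τ : J → H →L[ℂ] H} (h : Good τ) {W : Submodule ℂ H}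
    (hW : IsClosed (W : Set H)) (hinv : ∀ j, ∀ f ∈ W, τ j f ∈ W) (hne : W ≠ ⊥) :
    ∃ s, ApproxEigen τ W s := by
  classical
  have : CompleteSpace W := hW.completeSpace_coe
  let τ' : J → W →L[ℂ] W := fun j =>
    ((τ j).comp W.subtypeL).codRestrict W fun f => hinv j f f.2
  have hτ' : ∀ j (f : W), ((τ' j f : W) : H) = τ j f := fun j f => rfl
  have hgood : Good τ' := by
    refine ⟨fun j => ?_, fun i j => ?_⟩
    · obtain ⟨j', hj'⟩ := h.adj j
      refine ⟨j', ?_⟩
      rw [ContinuousLinearMap.eq_adjoint_iff]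
      intro x y
      rw [Submodule.coe_inner, Submodule.coe_inner, hτ', hτ', hj',
        ContinuousLinearMap.adjoint_inner_left]
    · ext f
      rw [mul_ap, mul_ap, hτ', hτ', hτ', hτ', ← mul_ap, ← mul_ap, h.comm]
  obtain ⟨A, inst, π, t, hu, ht, -, -⟩ := exists_rep hgood
  have hnt : Nontrivial W := (Submodule.nontrivial_iff_ne_bot).mpr hne
  have : Nontrivial A := by
    refine ⟨⟨1, 0, fun h10 => ?_⟩⟩
    have h1 : (1 : W →L[ℂ] W) = 0 := by
      have := congrArg π h10
      rwa [map_one, map_zero] at this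
    obtain ⟨f, hf⟩ := exists_ne (0 : W)
    exact hf (by simpa using congrArg (fun b : W →L[ℂ] W => b f) h1)
  obtain ⟨χ⟩ : Nonempty (characterSpace ℂ A) := inferInstance
  refine ⟨fun j => χ (t j), fun F ε hε => ?_⟩
  obtain ⟨f, hf1, hf2⟩ := approx_of_character π hu χ t F hε
  refine ⟨f, f.2, by simpa using hf1, fun j hj => ?_⟩
  have h3 := hf2 j hj
  rw [ht] at h3
  have h4 : τ j f - (fun j => χ (t j)) j • (f : H) = ((τ' j f - χ (t j) • f : W) : H) := by
    rw [Submodule.coe_sub, Submodule.coe_smul, hτ']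
  rw [h4, ← Submodule.coe_norm]
  exact h3

end Pool.Agent.H92.Arthur
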