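import Mathlib

/-!
# Commutative C*-algebras of operators and approximate joint eigenvalues

`π` is a representation of a commutative unital C*-algebra `A` on a Hilbert space `H` such that an
element of `A` is invertible as soon as the operator is invertible (spectral permanence; it holds
for closed star subalgebras of the algebra of bounded operators).
-/

open WeakDual
open scoped InnerProductSpace NNReal

namespace Pool.Agent.H92.Arthur

variable {H : Type} [NormedAddCommGroup H] [InnerProductSpace ℂ H] [CompleteSpace H]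

/-- `s` is an approximate joint eigenvalue of the operators `τ j` on the subspace `K`: for every
finite set of indices and every `ε > 0` there is a unit vector `f` in `K` with
`‖τ j f - s j f‖ ≤ ε` for the indices in this set. -/
def ApproxEigen {J : Type} (τ : J → H →L[ℂ] H) (K : Submodule ℂ H) (s : J → ℂ) : Prop :=
  ∀ F : Finset J, ∀ ε : ℝ, 0 < ε → ∃ f ∈ K, ‖f‖ = 1 ∧ ∀ j ∈ F, ‖τ j f - s j • f‖ ≤ ε

section Abstract

variable {A : Type} [CommCStarAlgebra A] (π : A →⋆ₐ[ℂ] (H →L[ℂ] H))

omit [CompleteSpace H] in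
theorem mul_ap (S T : H →L[ℂ] H) (f : H) : (S * T) f = S (T f) := rfl

theorem inner_star_mul (u : A) (f : H) :
    ⟪π (star u * u) f, f⟫_ℂ = ((‖π u f‖ ^ 2 : ℝ) : ℂ) := by
  rw [map_mul, map_star, mul_ap, ContinuousLinearMap.star_eq_adjoint,
    ContinuousLinearMap.adjoint_inner_left, inner_self_eq_norm_sq_to_K]
  norm_cast

theorem sub_const_ap (a : A) (c : ℂ) (f : H) :
    π (a - algebraMap ℂ A c) f = π a f - c • f := by
  rw [map_sub, AlgHomClass.commutes, sub_apply]
  rfl

/-- Characters have approximate joint eigenvectors. -/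
theorem approx_of_character (hu : ∀ a : A, IsUnit (π a) → IsUnit a) (χ : characterSpace ℂ A)
    {J : Type} (t : J → A) (F : Finset J) {ε : ℝ} (hε : 0 < ε) :
    ∃ f : H, ‖f‖ = 1 ∧ ∀ j ∈ F, ‖π (t j) f - χ (t j) • f‖ ≤ ε := by
  classical
  by_contra hcon
  push Not at hcon
  let u : J → A := fun j => t j - algebraMap ℂ A (χ (t j))
  have hπu : ∀ j f, π (u j) f = π (t j) f - χ (t j) • f := fun j f => sub_const_ap π _ _ f
  let S : A := ∑ j ∈ F, star (u j) * u j
  have hχ : χ S = 0 := by
    simp only [S, map_sum]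
    refine Finset.sum_eq_zero fun j _ => ?_
    have : χ (u j) = 0 := by
      simp only [u, map_sub, AlgHomClass.commutes]
      simp
    rw [map_mul, this, mul_zero]
  have hin : ∀ f, ⟪π S f, f⟫_ℂ = ((∑ j ∈ F, ‖π (u j) f‖ ^ 2 : ℝ) : ℂ) := by
    intro f
    simp only [S, map_sum, sum_apply, sum_inner, inner_star_mul, Complex.ofReal_sum]
  have hunit : IsUnit (π S) := by
    refine ContinuousLinearMap.isUnit_of_forall_le_norm_inner_map (c := Real.toNNReal (ε ^ 2)) _
      (Real.toNNReal_pos.mpr (by positivity)) fun f => ?_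
    rw [hin f, Complex.norm_real, Real.norm_of_nonneg (by positivity),
      Real.coe_toNNReal _ (by positivity)]
    by_cases hf : f = 0
    · simp [hf]
    · have hn : 0 < ‖f‖ := norm_pos_iff.mpr hf
      obtain ⟨j, hj, hj'⟩ := hcon ((‖f‖⁻¹ : ℂ) • f) (by
        rw [norm_smul, norm_inv, Complex.norm_real, norm_norm, inv_mul_cancel₀ hn.ne'])
      have h1 : ε * ‖f‖ < ‖π (u j) f‖ := by
        rw [← hπu, map_smul, norm_smul, norm_inv, Complex.norm_real, norm_norm] at hj'
        rwa [← div_eq_inv_mul, lt_div_iff₀ hn] at hj'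
      calc ‖f‖ ^ 2 * ε ^ 2 = (ε * ‖f‖) ^ 2 := by ring
        _ ≤ ‖π (u j) f‖ ^ 2 := by gcongr
        _ ≤ ∑ j ∈ F, ‖π (u j) f‖ ^ 2 :=
          Finset.single_le_sum (f := fun j => ‖π (u j) f‖ ^ 2) (fun _ _ => by positivity) hj
  have h2 : IsUnit (χ S) := (hu S hunit).map χ
  rw [hχ] at h2
  exact not_isUnit_zero h2

/-- If no character in the support of the idempotent `e` takes the values `s j` on the `t j`, then
`s` is not an approximate joint eigenvalue on the range of `e`. -/
theorem not_approx (e : A) (he : e * e = e) {J : Type} (t : J → A) (s : J → ℂ)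
    (h : ∀ χ : characterSpace ℂ A, χ e = 0 ∨ ∃ j, χ (t j) ≠ s j) :
    ∃ F : Finset J, ∃ ε : ℝ, 0 < ε ∧ ∀ f : H, π e f = f → ‖f‖ = 1 →
      ∃ j ∈ F, ε < ‖π (t j) f - s j • f‖ := by
  classical
  have hcont : ∀ a : A, Continuous fun χ : characterSpace ℂ A => χ a := fun a =>
    (gelfandTransform ℂ A a).continuous
  have hZ : IsCompact {χ : characterSpace ℂ A | χ e = 1} :=
    (isClosed_eq (hcont e) continuous_const).isCompact
  obtain ⟨F, hF⟩ := hZ.elim_finite_subcover
    (fun j => {χ : characterSpace ℂ A | χ (t j) ≠ s j})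
    (fun j => isOpen_ne_fun (hcont (t j)) continuous_const) (by
      intro χ hχ
      rcases h χ with h0 | ⟨j, hj⟩
      · exact absurd (h0.symm.trans hχ) zero_ne_one
      · exact Set.mem_iUnion.mpr ⟨j, hj⟩)
  let u : J → A := fun j => t j - algebraMap ℂ A (s j)
  have hπu : ∀ j f, π (u j) f = π (t j) f - s j • f := fun j f => sub_const_ap π _ _ f
  let S : A := ∑ j ∈ F, star (u j) * u j
  have hχS : ∀ χ : characterSpace ℂ A, χ S = ((∑ j ∈ F, ‖χ (t j) - s j‖ ^ 2 : ℝ) : ℂ) := by
    intro χ
    simp only [S, map_sum, Complex.ofReal_sum]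
    refine Finset.sum_congr rfl fun j _ => ?_
    have h1 : χ (u j) = χ (t j) - s j := by
      simp only [u, map_sub, AlgHomClass.commutes]
      simp
    rw [map_mul, map_star, h1]
    rw [Complex.star_def, Complex.conj_mul']
    norm_cast
  have hunit : IsUnit (S + (1 - e)) := by
    by_contra hn
    obtain ⟨χ, hχ⟩ := WeakDual.CharacterSpace.exists_apply_eq_zero hn
    have h01 : χ e = 0 ∨ χ e = 1 := by
      have : χ e * χ e = χ e := by rw [← map_mul, he]
      by_cases h0 : χ e = 0
      · exact Or.inl h0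
      · exact Or.inr (mul_left_cancel₀ h0 (by rw [this, mul_one]))
    rw [map_add, map_sub, map_one, hχS] at hχ
    have hnn : 0 ≤ ∑ j ∈ F, ‖χ (t j) - s j‖ ^ 2 := by positivity
    rcases h01 with h0 | h1
    · rw [h0] at hχ
      have := congrArg Complex.re hχ
      simp only [Complex.add_re, Complex.ofReal_re, Complex.sub_re, Complex.one_re,
        Complex.zero_re] at this
      linarith
    · obtain ⟨j, hj⟩ := Set.mem_iUnion.mp (hF h1)
      obtain ⟨hjF, hj⟩ := Set.mem_iUnion.mp hj
      have hpos : 0 < ∑ j ∈ F, ‖χ (t j) - s j‖ ^ 2 := by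
        refine Finset.sum_pos' (fun _ _ => by positivity) ⟨j, hjF, ?_⟩
        have : 0 < ‖χ (t j) - s j‖ := norm_pos_iff.mpr (sub_ne_zero.mpr hj)
        positivity
      rw [h1] at hχ
      have := congrArg Complex.re hχ
      simp only [Complex.add_re, Complex.ofReal_re, Complex.sub_re, Complex.one_re,
        Complex.zero_re] at this
      linarith
  obtain ⟨b, hb⟩ := hunit.exists_left_inv
  let C : ℝ := ‖π b‖ * ∑ j ∈ F, ‖π (star (u j))‖
  have hC : 0 ≤ C := by positivity
  refine ⟨F, 1 / (C + 1), by positivity, fun f hf hf1 => ?_⟩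
  by_contra hcon
  push Not at hcon
  have h1 : f = π b (π S f) := by
    have := congrArg (fun a => π a f) hb
    simp only [map_mul, map_add, map_sub, map_one, mul_ap, add_apply, sub_apply,
      one_apply_eq_self, hf, sub_self, add_zero] at this
    exact this.symm
  have h2 : ‖π S f‖ ≤ (∑ j ∈ F, ‖π (star (u j))‖) * (1 / (C + 1)) := by
    have : π S f = ∑ j ∈ F, π (star (u j)) (π (u j) f) := by
      simp only [S, map_sum, sum_apply, map_mul, mul_ap]
    rw [this, Finset.sum_mul]
    refine (norm_sum_le _ _).trans (Finset.sum_le_sum fun j hj => ?_)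
    refine ((π (star (u j))).le_opNorm _).trans ?_
    gcongr
    rw [hπu]
    exact hcon j hj
  have h3 : ‖f‖ ≤ C * (1 / (C + 1)) := by
    calc ‖f‖ = ‖π b (π S f)‖ := by rw [← h1]
      _ ≤ ‖π b‖ * ‖π S f‖ := (π b).le_opNorm _
      _ ≤ ‖π b‖ * ((∑ j ∈ F, ‖π (star (u j))‖) * (1 / (C + 1))) := by gcongr
      _ = C * (1 / (C + 1)) := by ring
  have h4 : C * (1 / (C + 1)) < 1 := by
    rw [mul_one_div, div_lt_one (by positivity)]
    linarith
  linarith

/-- Idempotents from a finite partition of the character space into closed sets. -/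
theorem exists_idempotents {O : Type} [Fintype O] [DecidableEq O]
    (Z : O → Set (characterSpace ℂ A)) (hZ : ∀ o, IsClosed (Z o))
    (hd : ∀ o o', o ≠ o' → Disjoint (Z o) (Z o')) (hc : ∀ χ, ∃ o, χ ∈ Z o) :
    ∃ e : O → A, (∀ o, e o * e o = e o) ∧ (∀ o, star (e o) = e o) ∧
      (∀ o o', o ≠ o' → e o * e o' = 0) ∧ (∑ o, e o = 1) ∧
      ∀ o (χ : characterSpace ℂ A), χ ∉ Z o → χ (e o) = 0 := by
  classical
  have hclopen : ∀ o, IsClopen (Z o) := by
    intro o
    refine ⟨hZ o, ?_⟩
    have : Z o = (⋃ o' ∈ Finset.univ.filter (· ≠ o), Z o')ᶜ := by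
      ext χ
      simp only [Finset.mem_filter, Finset.mem_univ, true_and, Set.mem_compl_iff, Set.mem_iUnion,
        exists_prop, not_exists, not_and]
      constructor
      · intro h o' ho' h'
        exact Set.disjoint_left.mp (hd o' o ho') h' h
      · intro h
        obtain ⟨o', ho'⟩ := hc χ
        by_cases hoo : o' = o
        · exact hoo ▸ ho'
        · exact absurd ho' (h o' hoo)
    rw [this]
    exact (isClosed_biUnion_finset fun o' _ => hZ o').isOpen_compl
  let φ : O → C(characterSpace ℂ A, ℂ) := fun o =>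
    ⟨fun χ => if χ ∈ Z o then 1 else 0, by
      refine continuous_const.if ?_ continuous_const
      intro χ hχ
      have : frontier {χ | χ ∈ Z o} = ∅ := (hclopen o).frontier_eq
      rw [this] at hχ
      exact absurd hχ (Set.notMem_empty _)⟩
  let e : O → A := fun o => (gelfandStarTransform A).symm (φ o)
  have hev : ∀ o (χ : characterSpace ℂ A), χ (e o) = if χ ∈ Z o then 1 else 0 := by
    intro o χ
    have : gelfandStarTransform A (e o) = φ o := (gelfandStarTransform A).apply_symm_apply _
    have h2 : gelfandStarTransform A (e o) χ = χ (e o) := rfl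
    rw [← h2, this]
    rfl
  have hext : ∀ a b : A, (∀ χ : characterSpace ℂ A, χ a = χ b) → a = b := by
    intro a b hab
    refine (gelfandStarTransform A).injective (ContinuousMap.ext fun χ => ?_)
    exact hab χ
  refine ⟨e, fun o => hext _ _ fun χ => ?_, fun o => hext _ _ fun χ => ?_,
    fun o o' hoo => hext _ _ fun χ => ?_, hext _ _ fun χ => ?_, fun o χ hχ => ?_⟩
  · rw [map_mul, hev]; split_ifs <;> simp
  · rw [map_star, hev]; split_ifs <;> simp
  · rw [map_mul, hev, hev, map_zero]
    by_cases h1 : χ ∈ Z o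
    · have h2 : χ ∉ Z o' := fun h2 => Set.disjoint_left.mp (hd o o' hoo) h1 h2
      simp [h2]
    · simp [h1]
  · rw [map_sum, map_one]
    simp only [hev]
    obtain ⟨o, ho⟩ := hc χ
    rw [Finset.sum_eq_single o]
    · simp [ho]
    · intro o' _ hne
      have : χ ∉ Z o' := fun h2 => Set.disjoint_left.mp (hd o' o hne) h2 ho
      simp [this]
    · simp
  · rw [hev]; simp [hχ]

end Abstract

end Pool.Agent.H92.Arthur
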