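import Pool.Agent.H92.Arthur.Core

/-!
# Orthogonal decompositions with prescribed joint spectra
-/

open WeakDual
open scoped InnerProductSpace NNReal

namespace Pool.Agent.H92.Arthur

/-- Commuting families of bounded operators, one for each place `x` in `V` (`T x i` for `i` in
`I x`), closed under adjoints. -/
structure HeckeData (H : Type) [NormedAddCommGroup H] [InnerProductSpace ℂ H] [CompleteSpace H]
    (V : Type) (I : V → Type) where
  /-- the Hecke operators at the place `x` -/
  T : (x : V) → I x → (H →L[ℂ] H)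
  /-- the adjoint of `T x i` is `T x (adj x i)` -/
  adj : (x : V) → I x → I x
  T_adj : ∀ x i, T x (adj x i) = ContinuousLinearMap.adjoint (T x i)
  comm : ∀ x i y j, T x i * T y j = T y j * T x i

variable {H : Type} [NormedAddCommGroup H] [InnerProductSpace ℂ H] [CompleteSpace H]
variable {V : Type} {I : V → Type}

/-- the joint spectrum of the operators at the place `x` on the subspace `K` -/
def HeckeData.Spec (S : HeckeData H V I) (x : V) (K : Submodule ℂ H) : Set (I x → ℂ) :=
  {s | ApproxEigen (S.T x) K s}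

/-- the joint spectrum of the operators at two places, on the whole space -/
def HeckeData.Spec₂ (S : HeckeData H V I) (x y : V) : Set (I x ⊕ I y → ℂ) :=
  {s | ApproxEigen (Sum.elim (S.T x) (S.T y)) ⊤ s}

/-- the joint spectrum of all operators at all places, on the whole space -/
def HeckeData.SpecAll (S : HeckeData H V I) : Set ((x : V) → I x → ℂ) :=
  {s | ApproxEigen (fun p : (x : V) × I x => S.T p.1 p.2) ⊤ fun p => s p.1 p.2}

variable {O : Type}

/-- `K` is an orthogonal decomposition of the space into closed subspaces `K o` which are invariant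
under the operators at the places in `P`, and such that the joint spectrum of the operators at `x`
on `K o` is contained in `R x o`, for every `x` in `P`. -/
structure IsDecomposition (S : HeckeData H V I) (R : (x : V) → O → Set (I x → ℂ)) (P : Set V)
    (K : O → Submodule ℂ H) : Prop where
  closed : ∀ o, IsClosed (K o : Set H)
  ortho : ∀ o o', o ≠ o' → K o ⟂ K o'
  span : ⨆ o, K o = ⊤
  invariant : ∀ x ∈ P, ∀ i o, ∀ f ∈ K o, S.T x i f ∈ K o
  spectrum : ∀ x ∈ P, ∀ o, S.Spec x (K o) ⊆ R x o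

theorem IsDecomposition.mono {S : HeckeData H V I} {R : (x : V) → O → Set (I x → ℂ)} {P Q : Set V}
    {K : O → Submodule ℂ H} (h : IsDecomposition S R P K) (hQ : Q ⊆ P) :
    IsDecomposition S R Q K :=
  ⟨h.closed, h.ortho, h.span, fun x hx => h.invariant x (hQ hx),
    fun x hx => h.spectrum x (hQ hx)⟩

omit [CompleteSpace H] in
theorem ApproxEigen.mono {J : Type} {τ : J → H →L[ℂ] H} {K K' : Submodule ℂ H} {s : J → ℂ}
    (h : ApproxEigen τ K s) (hK : K ≤ K') : ApproxEigen τ K' s := fun F ε hε => by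
  obtain ⟨f, hf, h1, h2⟩ := h F ε hε
  exact ⟨f, hK hf, h1, h2⟩

/-- the subspace fixed by `p` -/
def fix (p : H →L[ℂ] H) : Submodule ℂ H := LinearMap.ker ((p - 1 : H →L[ℂ] H) : H →ₗ[ℂ] H)

omit [CompleteSpace H] in
theorem mem_fix (p : H →L[ℂ] H) (f : H) : f ∈ fix p ↔ p f = f := by
  simp only [fix, LinearMap.mem_ker, ContinuousLinearMap.coe_coe, sub_apply, one_apply_eq_self,
    sub_eq_zero]

omit [CompleteSpace H] in
theorem isClosed_fix (p : H →L[ℂ] H) : IsClosed (fix p : Set H) :=
  ContinuousLinearMap.isClosed_ker (p - 1)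

section Abstract

variable {A : Type} [CommCStarAlgebra A] (π : A →⋆ₐ[ℂ] (H →L[ℂ] H))

/-- **From characters to decompositions.** -/
theorem decomposition_of_characters [Fintype O] [DecidableEq O] (S : HeckeData H V I)
    (R : (x : V) → O → Set (I x → ℂ)) (P : Set V) (hR : ∀ x o, IsClosed (R x o))
    (hd : ∀ x o o', o ≠ o' → Disjoint (R x o) (R x o')) (hP : P.Nonempty)
    (t : (x : P) → I x → A) (ht : ∀ x i, π (t x i) = S.T x i)
    (h : ∀ χ : characterSpace ℂ A, ∃ o, ∀ x : P, (fun i => χ (t x i)) ∈ R x o) :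
    ∃ e : O → A, (∀ o, e o * e o = e o) ∧ (∀ o, star (e o) = e o) ∧
      (∀ o o', o ≠ o' → e o * e o' = 0) ∧ (∑ o, e o = 1) ∧
      IsDecomposition S R P fun o => fix (π (e o)) := by
  classical
  obtain ⟨x₀, hx₀⟩ := hP
  have hcont : ∀ a : A, Continuous fun χ : characterSpace ℂ A => χ a := fun a =>
    (gelfandTransform ℂ A a).continuous
  let Z : O → Set (characterSpace ℂ A) := fun o =>
    {χ | ∀ x : P, (fun i => χ (t x i)) ∈ R x o}
  have hZ : ∀ o, IsClosed (Z o) := by
    intro o
    have : Z o = ⋂ x : P, (fun χ : characterSpace ℂ A => fun i => χ (t x i)) ⁻¹' (R x o) := by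
      ext χ; simp [Z]
    rw [this]
    exact isClosed_iInter fun x =>
      (hR x o).preimage (continuous_pi fun i => hcont (t x i))
  obtain ⟨e, h1, h2, h3, h4, h5⟩ := exists_idempotents Z hZ (fun o o' hoo =>
    Set.disjoint_left.mpr fun χ hχ hχ' =>
      Set.disjoint_left.mp (hd x₀ o o' hoo) (hχ ⟨x₀, hx₀⟩) (hχ' ⟨x₀, hx₀⟩)) h
  refine ⟨e, h1, h2, h3, h4, fun o => isClosed_fix _, fun o o' hoo => ?_, ?_, ?_, ?_⟩
  · rw [Submodule.isOrtho_iff_inner_eq]
    intro f hf g hg
    rw [mem_fix] at hf hg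
    rw [← hf, ← hg, ← ContinuousLinearMap.adjoint_inner_right,
      ← ContinuousLinearMap.star_eq_adjoint, ← map_star, h2, ← mul_ap, ← map_mul, h3 o o' hoo,
      map_zero]
    simp
  · rw [eq_top_iff]
    intro f _
    have : f = ∑ o, π (e o) f := by
      have := congrArg (fun a => π a f) h4
      simpa [map_sum, sum_apply] using this.symm
    rw [this]
    refine Submodule.sum_mem _ fun o _ => ?_
    refine Submodule.mem_iSup_of_mem o ?_
    rw [mem_fix, ← mul_ap, ← map_mul, h1]
  · intro x hx i o f hf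
    rw [mem_fix] at hf ⊢
    rw [← ht ⟨x, hx⟩ i, ← mul_ap, ← map_mul, mul_comm, map_mul, mul_ap, hf]
  · intro x hx o s hs
    by_contra hn
    obtain ⟨F, ε, hε, hF⟩ := not_approx π (e o) (h1 o) (t ⟨x, hx⟩) s (by
      intro χ
      by_cases hχ : χ ∈ Z o
      · right
        by_contra hall
        push Not at hall
        apply hn
        have : (fun i => χ (t ⟨x, hx⟩ i)) = s := funext hall
        exact this ▸ hχ ⟨x, hx⟩
      · exact Or.inl (h5 o χ hχ))
    obtain ⟨f, hfK, hf1, hf2⟩ := hs F ε hε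
    obtain ⟨j, hj, hj'⟩ := hF f ((mem_fix _ _).mp hfK) hf1
    have := hf2 j hj
    rw [ht] at hj'
    linarith

end Abstract

/-- The orthogonal projection onto an invariant subspace commutes with the operator. -/
theorem proj_comm {K : Submodule ℂ H} [K.HasOrthogonalProjection] (T : H →L[ℂ] H)
    (h1 : ∀ f ∈ K, T f ∈ K) (h2 : ∀ f ∈ K, ContinuousLinearMap.adjoint T f ∈ K) (f : H) :
    K.starProjection (T f) = T (K.starProjection f) := by
  refine Submodule.eq_starProjection_of_mem_orthogonal (h1 _ (Submodule.starProjection_apply_mem _ _)) ?_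
  rw [← map_sub, Submodule.mem_orthogonal]
  intro k hk
  rw [← ContinuousLinearMap.adjoint_inner_left]
  exact Submodule.inner_right_of_mem_orthogonal (h2 k hk) (Submodule.sub_starProjection_mem_orthogonal f)

omit [CompleteSpace H] in
theorem sum_proj [Fintype O] {K : O → Submodule ℂ H} [∀ o, CompleteSpace (K o)]
    (hK : ∀ o o', o ≠ o' → K o ⟂ K o') (hs : ⨆ o, K o = ⊤) (f : H) :
    ∑ o, (K o).starProjection f = f := by
  classical
  have hV : OrthogonalFamily ℂ (fun o => K o) fun o => (K o).subtypeₗᵢ :=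
    OrthogonalFamily.of_pairwise fun o o' hoo => hK o o' hoo
  exact hV.sum_projection_of_mem_iSup f (by rw [hs]; trivial)

section Abstract2

variable {A : Type} [CommCStarAlgebra A] (π : A →⋆ₐ[ℂ] (H →L[ℂ] H))

/-- **From decompositions to characters.** -/
theorem characters_of_decomposition [Fintype O] (hu : ∀ a : A, IsUnit (π a) → IsUnit a)
    (S : HeckeData H V I) (R : (x : V) → O → Set (I x → ℂ)) (P : Set V) {K : O → Submodule ℂ H}
    (hK : IsDecomposition S R P K) (t : (x : P) → I x → A) (ht : ∀ x i, π (t x i) = S.T x i)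
    (χ : characterSpace ℂ A) : ∃ o, ∀ x : P, (fun i => χ (t x i)) ∈ R x o := by
  classical
  by_contra hcon
  push Not at hcon
  choose x hx using hcon
  have h1 : ∀ o, ∃ (F : Finset (I (x o))) (ε : ℝ), 0 < ε ∧ ∀ f ∈ K o, ‖f‖ = 1 →
      ∃ i ∈ F, ε < ‖S.T (x o) i f - χ (t (x o) i) • f‖ := by
    intro o
    have h2 : (fun i => χ (t (x o) i)) ∉ S.Spec (x o) (K o) := fun h =>
      hx o (hK.spectrum (x o) (x o).2 o h)
    simp only [HeckeData.Spec, ApproxEigen, Set.mem_ofPred_eq] at h2
    push Not at h2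
    exact h2
  choose F ε hε hF using h1
  have : ∀ o, CompleteSpace (K o) := fun o => (hK.closed o).completeSpace_coe
  obtain ⟨δ, hδ, hδε⟩ : ∃ δ : ℝ, 0 < δ ∧ ∀ o, δ ≤ ε o := by
    rcases isEmpty_or_nonempty O with hO | hO
    · exact ⟨1, one_pos, fun o => hO.elim o⟩
    · obtain ⟨o, ho⟩ := Finite.exists_min ε
      exact ⟨ε o, hε o, ho⟩
  set N : ℝ := (Fintype.card O : ℝ) + 1 with hN
  have hNpos : 0 < N := by positivity
  let F' : Finset ((x : P) × I x) := Finset.univ.biUnion fun o => (F o).map ⟨Sigma.mk (x o), sigma_mk_injective⟩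
  obtain ⟨f, hf1, hf2⟩ := approx_of_character π hu χ (fun p : (x : P) × I x => t p.1 p.2) F'
    (div_pos hδ hNpos)
  obtain ⟨o, ho⟩ : ∃ o, 1 / N ≤ ‖(K o).starProjection f‖ := by
    by_contra hlt
    push Not at hlt
    have h3 : ‖f‖ ≤ ∑ o, ‖(K o).starProjection f‖ := by
      conv_lhs => rw [← sum_proj hK.ortho hK.span f]
      exact norm_sum_le _ _
    have h4 : ∑ o, ‖(K o).starProjection f‖ ≤ ∑ _o : O, 1 / N :=
      Finset.sum_le_sum fun o _ => (hlt o).le
    rw [Finset.sum_const, Finset.card_univ, nsmul_eq_mul, mul_one_div] at h4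
    have h5 : (Fintype.card O : ℝ) / N < 1 := by
      rw [div_lt_one hNpos]; linarith
    linarith
  have hpos : 0 < ‖(K o).starProjection f‖ := lt_of_lt_of_le (by positivity) ho
  set g : H := ((‖(K o).starProjection f‖⁻¹ : ℝ) : ℂ) • (K o).starProjection f with hg
  have hgK : g ∈ K o := (K o).smul_mem _ (Submodule.starProjection_apply_mem _ _)
  have hg1 : ‖g‖ = 1 := by
    rw [hg, norm_smul, Complex.norm_real, norm_inv, norm_norm, inv_mul_cancel₀ hpos.ne']
  obtain ⟨i, hi, hi'⟩ := hF o g hgK hg1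
  have h6 : S.T (x o) i g - χ (t (x o) i) • g =
      ((‖(K o).starProjection f‖⁻¹ : ℝ) : ℂ) •
        (K o).starProjection (S.T (x o) i f - χ (t (x o) i) • f) := by
    rw [hg, map_smul, map_sub, map_smul, smul_comm, ← smul_sub]
    congr 2
    refine (proj_comm (K := K o) (S.T (x o) i) (hK.invariant _ (x o).2 i o) ?_ f).symm
    intro k hk
    rw [← S.T_adj]
    exact hK.invariant _ (x o).2 _ o k hk
  have h7 : ‖S.T (x o) i f - χ (t (x o) i) • f‖ ≤ δ / N := by
    have := hf2 ⟨x o, i⟩ (Finset.mem_biUnion.mpr ⟨o, Finset.mem_univ _,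
      Finset.mem_map.mpr ⟨i, hi, rfl⟩⟩)
    simpa only [ht] using this
  have h8 : ‖(K o).starProjection (S.T (x o) i f - χ (t (x o) i) • f)‖ ≤ δ / N :=
    (Submodule.norm_starProjection_apply_le _ _).trans h7
  rw [h6, norm_smul, Complex.norm_real, norm_inv, norm_norm] at hi'
  have h9 : ‖(K o).starProjection f‖⁻¹ ≤ N := by
    rw [inv_le_comm₀ hpos hNpos]
    simpa using ho
  have h10 : ‖(K o).starProjection f‖⁻¹ *
      ‖(K o).starProjection (S.T (x o) i f - χ (t (x o) i) • f)‖ ≤ N * (δ / N) := by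
    gcongr
  rw [mul_div_cancel₀ _ hNpos.ne'] at h10
  have := hδε o
  linarith

end Abstract2

end Pool.Agent.H92.Arthur
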