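import Pool.Agent.H92.Arthur.Alg

/-!
# Arthur decompositions: two places at a time
-/

open WeakDual
open scoped InnerProductSpace NNReal

namespace Pool.Agent.H92.Arthur

variable {H : Type} [NormedAddCommGroup H] [InnerProductSpace ℂ H] [CompleteSpace H]
variable {V : Type} {I : V → Type} {O : Type}

theorem HeckeData.good_at (S : HeckeData H V I) (x : V) : Good (S.T x) :=
  ⟨fun i => ⟨S.adj x i, S.T_adj x i⟩, fun i j => S.comm x i x j⟩

theorem HeckeData.good (S : HeckeData H V I) : Good fun p : (x : V) × I x => S.T p.1 p.2 :=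
  ⟨fun p => ⟨⟨p.1, S.adj p.1 p.2⟩, S.T_adj p.1 p.2⟩, fun p q => S.comm p.1 p.2 q.1 q.2⟩

section Abstract

variable {A : Type} [CommCStarAlgebra A] (π : A →⋆ₐ[ℂ] (H →L[ℂ] H))

theorem lift_character {J : Type} {τ : J → H →L[ℂ] H} (t : J → A) (ht : ∀ j, π (t j) = τ j)
    {s : J → ℂ} (h : ApproxEigen τ ⊤ s) : ∃ χ : characterSpace ℂ A, (fun j => χ (t j)) = s := by
  by_contra hcon
  push Not at hcon
  obtain ⟨F, ε, hε, hF⟩ := not_approx π 1 (one_mul 1) t s (fun χ => Or.inr (by
    by_contra hall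
    push Not at hall
    exact hcon χ (funext hall)))
  obtain ⟨f, -, hf1, hf2⟩ := h F ε hε
  obtain ⟨j, hj, hj'⟩ := hF f (by rw [map_one]; rfl) hf1
  have := hf2 j hj
  rw [ht] at hj'
  linarith

theorem approx_character (hu : ∀ a : A, IsUnit (π a) → IsUnit a) {J : Type}
    {τ : J → H →L[ℂ] H} (t : J → A) (ht : ∀ j, π (t j) = τ j) (χ : characterSpace ℂ A) :
    ApproxEigen τ ⊤ fun j => χ (t j) := by
  intro F ε hε
  obtain ⟨f, hf1, hf2⟩ := approx_of_character π hu χ t F hε
  refine ⟨f, trivial, hf1, fun j hj => ?_⟩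
  have := hf2 j hj
  rwa [ht] at this

end Abstract

/-- A decomposition is determined by its spectrum at one place. -/
theorem eq_fix [Fintype O] (S : HeckeData H V I) (R : (x : V) → O → Set (I x → ℂ))
    (hd : ∀ x o o', o ≠ o' → Disjoint (R x o) (R x o')) {P : Set V} {K : O → Submodule ℂ H}
    (hK : IsDecomposition S R P K) {x : V} (hx : x ∈ P) {e : O → H →L[ℂ] H}
    (he : ∀ o, e o ∈ Alg (S.T x)) (h1 : ∀ o, e o * e o = e o)
    (h3 : ∀ o o', o ≠ o' → e o * e o' = 0) (h4 : ∑ o, e o = 1)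
    (h5 : IsDecomposition S R {x} fun o => fix (e o)) (o : O) : K o = fix (e o) := by
  classical
  have hgood := S.good_at x
  have hsum : ∀ f, ∑ o, e o f = f := by
    intro f
    have := congrArg (fun a : H →L[ℂ] H => a f) h4
    simpa [sum_apply] using this
  have hle : ∀ o, K o ≤ fix (e o) := by
    intro o f hf
    have hz : ∀ o', o' ≠ o → e o' f = 0 := by
      intro o' hoo
      by_contra hne
      have hgK : e o' f ∈ K o :=
        invariant_alg hgood (hK.closed o) (fun i => hK.invariant x hx i o) (he o') f hf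
      have hgf : e o' f ∈ fix (e o') := by rw [mem_fix, ← mul_ap, h1]
      obtain ⟨s, hs⟩ := exists_approx hgood (W := K o ⊓ fix (e o'))
        ((hK.closed o).inter (isClosed_fix _))
        (fun i g hg => ⟨hK.invariant x hx i o g hg.1, h5.invariant x rfl i o' g hg.2⟩)
        (fun hbot => hne (by
          have : e o' f ∈ K o ⊓ fix (e o') := ⟨hgK, hgf⟩
          rwa [hbot, Submodule.mem_bot] at this))
      exact Set.disjoint_left.mp (hd x o o' hoo.symm)
        (hK.spectrum x hx o (hs.mono inf_le_left)) (h5.spectrum x rfl o' (hs.mono inf_le_right))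
    rw [mem_fix]
    conv_rhs => rw [← hsum f]
    rw [Finset.sum_eq_single o (fun o' _ hoo => hz o' hoo) (by simp)]
  refine le_antisymm (hle o) fun f hf => ?_
  have : ∀ o, CompleteSpace (K o) := fun o => (hK.closed o).completeSpace_coe
  have hfo : e o f = f := (mem_fix _ _).mp hf
  have h6 : f = (K o).starProjection f := by
    conv_lhs => rw [← hfo, ← sum_proj hK.ortho hK.span f, map_sum]
    rw [Finset.sum_eq_single o]
    · exact (mem_fix _ _).mp (hle o (Submodule.starProjection_apply_mem _ _))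
    · intro o' _ hoo
      have h7 : e o' ((K o').starProjection f) = (K o').starProjection f :=
        (mem_fix _ _).mp (hle o' (Submodule.starProjection_apply_mem _ _))
      rw [← h7, ← mul_ap, h3 o o' hoo.symm]
      rfl
    · simp
  rw [h6]
  exact Submodule.starProjection_apply_mem _ _

/-- The canonical projections at one place. -/
theorem exists_projections [Fintype O] (S : HeckeData H V I) (R : (x : V) → O → Set (I x → ℂ))
    (hR : ∀ x o, IsClosed (R x o)) (hd : ∀ x o o', o ≠ o' → Disjoint (R x o) (R x o'))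
    {P : Set V} {K : O → Submodule ℂ H} (hK : IsDecomposition S R P K) {x : V} (hx : x ∈ P) :
    ∃ e : O → H →L[ℂ] H, (∀ o, e o ∈ Alg (S.T x)) ∧ (∀ o, e o * e o = e o) ∧
      (∀ o, ContinuousLinearMap.adjoint (e o) = e o) ∧ (∀ o o', o ≠ o' → e o * e o' = 0) ∧
      (∑ o, e o = 1) ∧ IsDecomposition S R {x} fun o => fix (e o) := by
  classical
  obtain ⟨A, inst, π, t, hu, ht, hmem, -⟩ := exists_rep (S.good_at x)
  have hK' : IsDecomposition S R {x} K := hK.mono (Set.singleton_subset_iff.mpr hx)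
  let t' : (y : ({x} : Set V)) → I y → A := fun y i => t (cast (by rw [y.2]) i)
  have ht' : ∀ y i, π (t' y i) = S.T y i := by
    rintro ⟨y, hy⟩ i
    obtain rfl : y = x := hy
    exact ht i
  obtain ⟨e, h1, h2, h3, h4, h5⟩ := decomposition_of_characters π S R {x} hR hd ⟨x, rfl⟩ t' ht'
    (characters_of_decomposition π hu S R {x} hK' t' ht')
  refine ⟨fun o => π (e o), fun o => hmem _, fun o => by rw [← map_mul, h1], fun o => ?_,
    fun o o' hoo => by rw [← map_mul, h3 o o' hoo, map_zero], by rw [← map_sum, h4, map_one], h5⟩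
  rw [← ContinuousLinearMap.star_eq_adjoint, ← map_star, h2]

/-- Decompositions at two sets of places with a common place agree, and the projections lie in the
closed algebra generated by the operators at this place. -/
theorem projections_of_decomposition [Finite O] (S : HeckeData H V I)
    (R : (x : V) → O → Set (I x → ℂ)) (hR : ∀ x o, IsClosed (R x o))
    (hd : ∀ x o o', o ≠ o' → Disjoint (R x o) (R x o'))
    {P : Set V} {K : O → Submodule ℂ H} (hK : IsDecomposition S R P K) {x : V} (hx : x ∈ P)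
    (o : O) : ∃ p ∈ Alg (S.T x), p * p = p ∧ ContinuousLinearMap.adjoint p = p ∧
      ∀ f, f ∈ K o ↔ p f = f := by
  have := Fintype.ofFinite O
  obtain ⟨e, he, h1, h2, h3, h4, h5⟩ := exists_projections S R hR hd hK hx
  refine ⟨e o, he o, h1 o, h2 o, fun f => ?_⟩
  rw [eq_fix S R hd hK hx he h1 h3 h4 h5 o, mem_fix]

theorem unique [Finite O] (S : HeckeData H V I)
    (R : (x : V) → O → Set (I x → ℂ)) (hR : ∀ x o, IsClosed (R x o))
    (hd : ∀ x o o', o ≠ o' → Disjoint (R x o) (R x o'))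
    {P P' : Set V} {K K' : O → Submodule ℂ H} (hK : IsDecomposition S R P K)
    (hK' : IsDecomposition S R P' K') {x : V} (hx : x ∈ P) (hx' : x ∈ P') : K = K' := by
  have := Fintype.ofFinite O
  obtain ⟨e, he, h1, h2, h3, h4, h5⟩ := exists_projections S R hR hd hK hx
  funext o
  rw [eq_fix S R hd hK hx he h1 h3 h4 h5 o, eq_fix S R hd hK' hx' he h1 h3 h4 h5 o]

/-- the pairs of points at `x` and `y` which have the same type `o` -/
def Types (R : (x : V) → O → Set (I x → ℂ)) (x y : V) : Set (I x ⊕ I y → ℂ) :=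
  {s | ∃ o, (fun i => s (Sum.inl i)) ∈ R x o ∧ (fun i => s (Sum.inr i)) ∈ R y o}

/-- The main equivalences. -/
theorem tfae_pairs [Finite O] [Nontrivial V] (S : HeckeData H V I)
    (R : (x : V) → O → Set (I x → ℂ)) (hR : ∀ x o, IsClosed (R x o))
    (hd : ∀ x o o', o ≠ o' → Disjoint (R x o) (R x o')) (G : SimpleGraph V) (hG : G.Connected) :
    List.TFAE [
      ∃ K, IsDecomposition S R Set.univ K,
      ∀ x y, G.Adj x y → ∃ K, IsDecomposition S R {x, y} K,
      ∀ x y, G.Adj x y → S.Spec₂ x y ⊆ Types R x y,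
      ∀ s ∈ S.SpecAll, ∃ o, ∀ x, s x ∈ R x o] := by
  classical
  have := Fintype.ofFinite O
  obtain ⟨A, inst, π, t, hu, ht, -, -⟩ := exists_rep S.good
  have hpair : ∀ x y, ∀ s ∈ S.Spec₂ x y, ∃ χ : characterSpace ℂ A,
      (∀ i, χ (t ⟨x, i⟩) = s (Sum.inl i)) ∧ ∀ i, χ (t ⟨y, i⟩) = s (Sum.inr i) := by
    intro x y s hs
    obtain ⟨χ, hχ⟩ := lift_character π (Sum.elim (fun i => t ⟨x, i⟩) fun i => t ⟨y, i⟩)
      (by rintro (i | i) <;> simp [ht]) hs
    exact ⟨χ, fun i => congrFun hχ (Sum.inl i), fun i => congrFun hχ (Sum.inr i)⟩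
  have hpair' : ∀ (x y : V) (χ : characterSpace ℂ A),
      (fun j => χ (Sum.elim (fun i => t ⟨x, i⟩) (fun i => t ⟨y, i⟩) j)) ∈ S.Spec₂ x y := by
    intro x y χ
    exact approx_character π hu (τ := Sum.elim (S.T x) (S.T y))
      (Sum.elim (fun i => t ⟨x, i⟩) fun i => t ⟨y, i⟩)
      (by rintro (i | i) <;> simp [ht]) χ
  tfae_have 1 → 2 := fun ⟨K, hK⟩ x y _ => ⟨K, hK.mono (Set.subset_univ _)⟩
  tfae_have 2 → 3 := by
    intro h x y hxy s hs
    obtain ⟨K, hK⟩ := h x y hxy
    obtain ⟨χ, hχ1, hχ2⟩ := hpair x y s hs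
    obtain ⟨o, ho⟩ := characters_of_decomposition π hu S R {x, y} hK
      (fun z i => t ⟨z, i⟩) (fun z i => ht _) χ
    refine ⟨o, ?_, ?_⟩
    · have := ho ⟨x, by simp⟩
      rwa [show (fun i => χ (t ⟨x, i⟩)) = fun i => s (Sum.inl i) from funext hχ1] at this
    · have := ho ⟨y, by simp⟩
      rwa [show (fun i => χ (t ⟨y, i⟩)) = fun i => s (Sum.inr i) from funext hχ2] at this
  tfae_have 3 → 1 := by
    intro h
    have hchar : ∀ χ : characterSpace ℂ A, ∃ o, ∀ x, (fun i => χ (t ⟨x, i⟩)) ∈ R x o := by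
      intro χ
      obtain ⟨z₀, w, hzw⟩ := exists_pair_ne V
      obtain ⟨v, hv⟩ : ∃ v, G.Adj z₀ v := by
        obtain ⟨p⟩ := hG.preconnected z₀ w
        cases p with
        | nil => exact absurd rfl hzw
        | cons h _ => exact ⟨_, h⟩
      obtain ⟨o, ho, -⟩ := h z₀ v hv (hpair' z₀ v χ)
      refine ⟨o, fun x => ?_⟩
      obtain ⟨p⟩ := hG.preconnected z₀ x
      clear hv hzw
      induction p with
      | nil => exact ho
      | @cons a b c hab _ ih =>
        obtain ⟨o', ha, hb⟩ := h a b hab (hpair' a b χ)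
        have hoo : o' = o := by
          by_contra hne
          exact Set.disjoint_left.mp (hd a o' o hne) ha ho
        exact ih (hoo ▸ hb)
    obtain ⟨z₀, w, hzw⟩ := exists_pair_ne V
    obtain ⟨e, -, -, -, -, h5⟩ := decomposition_of_characters π S R Set.univ hR hd ⟨z₀, trivial⟩
      (fun z i => t ⟨z, i⟩) (fun z i => ht _) (fun χ => by
        obtain ⟨o, ho⟩ := hchar χ
        exact ⟨o, fun x => ho x⟩)
    exact ⟨_, h5⟩
  tfae_have 1 → 4 := by
    rintro ⟨K, hK⟩ s hs
    obtain ⟨χ, hχ⟩ := lift_character π t (fun j => ht j) hs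
    obtain ⟨o, ho⟩ := characters_of_decomposition π hu S R Set.univ hK
      (fun z i => t ⟨z, i⟩) (fun z i => ht _) χ
    refine ⟨o, fun x => ?_⟩
    have := ho ⟨x, trivial⟩
    rwa [show (fun i => χ (t ⟨x, i⟩)) = s x from
      funext fun i => congrFun hχ ⟨x, i⟩] at this
  tfae_have 4 → 3 := by
    intro h x y _ s hs
    obtain ⟨χ, hχ1, hχ2⟩ := hpair x y s hs
    obtain ⟨o, ho⟩ := h (fun z i => χ (t ⟨z, i⟩))
      (approx_character π hu t (fun j => ht j) χ)
    refine ⟨o, ?_, ?_⟩
    · rw [← show (fun i => χ (t ⟨x, i⟩)) = fun i => s (Sum.inl i) from funext hχ1]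
      exact ho x
    · rw [← show (fun i => χ (t ⟨y, i⟩)) = fun i => s (Sum.inr i) from funext hχ2]
      exact ho y
  tfae_finish

end Pool.Agent.H92.Arthur
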