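import Pool.Agent.H92.Arthur.Main

/-!
# Joint spectra and growth of vectors
-/

open WeakDual Filter Topology
open scoped InnerProductSpace NNReal

namespace Pool.Agent.H92.Arthur

variable {H : Type} [NormedAddCommGroup H] [InnerProductSpace ℂ H] [CompleteSpace H]

section Gelfand

variable {A : Type} [CommCStarAlgebra A]

theorem norm_le_of_characters (a : A) {r : ℝ} (hr : 0 ≤ r)
    (h : ∀ χ : characterSpace ℂ A, ‖χ a‖ ≤ r) : ‖a‖ ≤ r := by
  have h1 : ‖gelfandTransform ℂ A a‖ = ‖a‖ :=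
    (gelfandTransform_isometry A).norm_map_of_map_zero (map_zero _) a
  rw [← h1]
  exact (ContinuousMap.norm_le _ hr).mpr h

theorem char_symm (φ : C(characterSpace ℂ A, ℂ)) (χ : characterSpace ℂ A) :
    χ ((gelfandStarTransform A).symm φ) = φ χ := by
  have : gelfandStarTransform A ((gelfandStarTransform A).symm φ) = φ :=
    (gelfandStarTransform A).apply_symm_apply _
  conv_rhs => rw [← this]
  rfl

theorem ext_char {a b : A} (h : ∀ χ : characterSpace ℂ A, χ a = χ b) : a = b :=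
  (gelfandStarTransform A).injective (ContinuousMap.ext fun χ => h χ)

/-- Spectral cut-offs outside the disc of radius `ρ`. -/
theorem exists_cutoff (a : A) {ρ : ℝ} (hρ : 0 < ρ) :
    ∃ c b : A, ‖c‖ ≤ ρ⁻¹ ∧ c * a * b = b ∧
      ∀ χ : characterSpace ℂ A, ρ < ‖χ a‖ → χ b ≠ 0 := by
  have hcont : Continuous fun χ : characterSpace ℂ A => χ a :=
    (gelfandTransform ℂ A a).continuous
  let φ : C(characterSpace ℂ A, ℂ) :=
    ⟨fun χ => star (χ a) / ((max (‖χ a‖ ^ 2) (ρ ^ 2) : ℝ) : ℂ), by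
      refine (continuous_star.comp hcont).div ?_ fun χ => ?_
      · exact Complex.continuous_ofReal.comp ((hcont.norm.pow 2).max continuous_const)
      · have : 0 < max (‖χ a‖ ^ 2) (ρ ^ 2) := lt_max_of_lt_right (by positivity)
        exact_mod_cast this.ne'⟩
  let ψ : C(characterSpace ℂ A, ℂ) :=
    ⟨fun χ => ((max (‖χ a‖ - ρ) 0 : ℝ) : ℂ),
      Complex.continuous_ofReal.comp ((hcont.norm.sub continuous_const).max continuous_const)⟩
  refine ⟨(gelfandStarTransform A).symm φ, (gelfandStarTransform A).symm ψ, ?_, ?_, ?_⟩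
  · refine norm_le_of_characters _ (by positivity) fun χ => ?_
    rw [char_symm]
    show ‖star (χ a) / ((max (‖χ a‖ ^ 2) (ρ ^ 2) : ℝ) : ℂ)‖ ≤ ρ⁻¹
    have hm : 0 < max (‖χ a‖ ^ 2) (ρ ^ 2) := lt_max_of_lt_right (by positivity)
    rw [norm_div, norm_star, Complex.norm_real, Real.norm_of_nonneg hm.le, div_le_iff₀ hm,
      ← div_eq_inv_mul, le_div_iff₀ hρ]
    rcases le_total ‖χ a‖ ρ with h | h
    · calc ‖χ a‖ * ρ ≤ ρ * ρ := by gcongr
        _ = ρ ^ 2 := by ring
        _ ≤ _ := le_max_right _ _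
    · calc ‖χ a‖ * ρ ≤ ‖χ a‖ * ‖χ a‖ := by gcongr
        _ = ‖χ a‖ ^ 2 := by ring
        _ ≤ _ := le_max_left _ _
  · refine ext_char fun χ => ?_
    rw [map_mul, map_mul, char_symm, char_symm]
    show star (χ a) / ((max (‖χ a‖ ^ 2) (ρ ^ 2) : ℝ) : ℂ) * χ a * ((max (‖χ a‖ - ρ) 0 : ℝ) : ℂ)
      = ((max (‖χ a‖ - ρ) 0 : ℝ) : ℂ)
    rcases le_or_gt ‖χ a‖ ρ with h | h
    · rw [max_eq_right (by linarith : ‖χ a‖ - ρ ≤ 0)]
      simp
    · have h1 : max (‖χ a‖ ^ 2) (ρ ^ 2) = ‖χ a‖ ^ 2 := max_eq_left (by gcongr)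
      have h2 : (0 : ℝ) < ‖χ a‖ ^ 2 := by
        have : 0 < ‖χ a‖ := hρ.trans h
        positivity
      rw [h1, div_mul_eq_mul_div]
      have h3 : star (χ a) * χ a = ((‖χ a‖ ^ 2 : ℝ) : ℂ) := by
        rw [Complex.star_def, Complex.conj_mul']
        norm_cast
      rw [h3, div_self (by exact_mod_cast h2.ne'), one_mul]
  · intro χ hχ
    rw [char_symm]
    show ((max (‖χ a‖ - ρ) 0 : ℝ) : ℂ) ≠ 0
    rw [max_eq_left (by linarith)]
    exact_mod_cast (sub_pos.mpr hχ).ne'

end Gelfand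

/-- **Joint spectra and growth.** Let `τ j` be commuting operators, closed under adjoints, `C` a compact
set of points `c` with `c (adj j) = conj (c j)`, and let the span of `D` be dense. The joint
spectrum is contained in `C` if and only if `‖p(τ)‖ ≤ max |p(C)|` for all polynomials `p`, if and only if
for all `f` in `D` and all `p` the vectors `p(τ) ^ n f` grow at most like `(max |p(C)| + ε) ^ n`. -/
theorem tfae_growth {J : Type} (τ : J → H →L[ℂ] H) (adj : J → J)
    (hadj : ∀ j, τ (adj j) = ContinuousLinearMap.adjoint (τ j))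
    (hcomm : ∀ i j, τ i * τ j = τ j * τ i) (C : Set (J → ℂ)) (hC : IsCompact C)
    (hherm : ∀ c ∈ C, ∀ j, c (adj j) = star (c j)) (D : Set H)
    (hD : Dense (Submodule.span ℂ D : Set H)) : List.TFAE [
      ∀ s, ApproxEigen τ ⊤ s → s ∈ C,
      ∀ (p : FreeAlgebra ℂ J) (r : ℝ), 0 ≤ r → (∀ c ∈ C, ‖FreeAlgebra.lift ℂ c p‖ ≤ r) →
        ‖FreeAlgebra.lift ℂ τ p‖ ≤ r,
      ∀ f ∈ D, ∀ (p : FreeAlgebra ℂ J) (r : ℝ), 0 ≤ r →
        (∀ c ∈ C, ‖FreeAlgebra.lift ℂ c p‖ ≤ r) → ‖FreeAlgebra.lift ℂ τ p f‖ ≤ r * ‖f‖,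
      ∀ f ∈ D, ∀ (p : FreeAlgebra ℂ J) (r : ℝ), 0 ≤ r →
        (∀ c ∈ C, ‖FreeAlgebra.lift ℂ c p‖ ≤ r) → ∀ ε : ℝ, 0 < ε → ∃ k : ℝ, ∀ n : ℕ,
          ‖(FreeAlgebra.lift ℂ τ p ^ n) f‖ ≤ k * (r + ε) ^ n] := by
  classical
  have hgood : Good τ := ⟨fun j => ⟨adj j, hadj j⟩, hcomm⟩
  obtain ⟨A, inst, π, t, hu, ht, -, hinj⟩ := exists_rep hgood
  have hπ : ∀ p, π (FreeAlgebra.lift ℂ t p) = FreeAlgebra.lift ℂ τ p := by
    intro p
    have h1 : ((π : A →ₐ[ℂ] (H →L[ℂ] H)).comp (FreeAlgebra.lift ℂ t)) = FreeAlgebra.lift ℂ τ :=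
      FreeAlgebra.hom_ext (funext fun j => by simp [ht])
    exact congrArg (fun g : FreeAlgebra ℂ J →ₐ[ℂ] (H →L[ℂ] H) => g p) h1
  have hχ : ∀ (χ : characterSpace ℂ A) p,
      χ (FreeAlgebra.lift ℂ t p) = FreeAlgebra.lift ℂ (fun j => χ (t j)) p := by
    intro χ p
    have h1 : ((CharacterSpace.toAlgHom χ).comp (FreeAlgebra.lift ℂ t)) =
        FreeAlgebra.lift ℂ (fun j => χ (t j)) :=
      FreeAlgebra.hom_ext (funext fun j => by simp)
    exact congrArg (fun g : FreeAlgebra ℂ J →ₐ[ℂ] ℂ => g p) h1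
  tfae_have 1 → 2 := by
    intro h p r hr hp
    rw [← hπ]
    refine (NonUnitalStarAlgHom.norm_apply_le π _).trans (norm_le_of_characters _ hr fun χ => ?_)
    rw [hχ]
    exact hp _ (h _ (approx_character π hu t ht χ))
  tfae_have 2 → 3 := by
    intro h f _ p r hr hp
    refine (ContinuousLinearMap.le_opNorm _ _).trans ?_
    gcongr
    exact h p r hr hp
  tfae_have 3 → 4 := by
    intro h f hf p r hr hp ε hε
    refine ⟨‖f‖, fun n => ?_⟩
    have h1 := h f hf (p ^ n) (r ^ n) (by positivity) (fun c hc => by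
      rw [map_pow, norm_pow]
      gcongr
      exact hp c hc)
    rw [map_pow] at h1
    refine h1.trans ?_
    rw [mul_comm]
    gcongr
    linarith
  tfae_have 4 → 1 := by
    intro h s hs
    by_contra hsC
    obtain ⟨χ₀, hχ₀⟩ := lift_character π t ht hs
    have hstar : ∀ j, t (adj j) = star (t j) := by
      intro j
      apply hinj
      rw [ht, map_star, ht, hadj, ContinuousLinearMap.star_eq_adjoint]
    have hsh : ∀ j, s (adj j) = star (s j) := by
      intro j
      rw [← hχ₀]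
      show χ₀ (t (adj j)) = star (χ₀ (t j))
      rw [hstar, map_star]
    -- finitely many coordinates separate `s` from `C`
    obtain ⟨F, hF⟩ := hC.elim_finite_subcover (fun j => {c : J → ℂ | c j ≠ s j})
      (fun j => isOpen_ne_fun (continuous_apply j) continuous_const) (by
        intro c hc
        by_contra hn
        simp only [Set.mem_iUnion, not_exists, Set.mem_ofPred_eq, not_not] at hn
        exact hsC (funext hn ▸ hc))
    let φ : (J → ℂ) → ℝ := fun c => ∑ j ∈ F, ‖c j - s j‖ ^ 2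
    have hφ : Continuous φ := by
      refine continuous_finsetSum _ fun j _ => ?_
      exact ((continuous_apply j).sub continuous_const).norm.pow 2
    have hφpos : ∀ c ∈ C, 0 < φ c := by
      intro c hc
      obtain ⟨j, hj⟩ := Set.mem_iUnion.mp (hF hc)
      obtain ⟨hjF, hj⟩ := Set.mem_iUnion.mp hj
      refine Finset.sum_pos' (fun _ _ => by positivity) ⟨j, hjF, ?_⟩
      have : 0 < ‖c j - s j‖ := norm_pos_iff.mpr (sub_ne_zero.mpr hj)
      positivity
    obtain ⟨δ, B, hδ, hδB, hCδ⟩ : ∃ δ B : ℝ, 0 < δ ∧ δ ≤ B ∧ ∀ c ∈ C, δ ≤ φ c ∧ φ c ≤ B := by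
      rcases C.eq_empty_or_nonempty with h0 | h0
      · exact ⟨1, 1, one_pos, le_rfl, by simp [h0]⟩
      · obtain ⟨c₁, hc₁, hmin⟩ := hC.exists_isMinOn h0 hφ.continuousOn
        obtain ⟨c₂, hc₂, hmax⟩ := hC.exists_isMaxOn h0 hφ.continuousOn
        exact ⟨φ c₁, φ c₂, hφpos c₁ hc₁, hmin hc₂, fun c hc => ⟨hmin hc, hmax hc⟩⟩
    let p : FreeAlgebra ℂ J := algebraMap ℂ _ (B : ℂ) -
      ∑ j ∈ F, (FreeAlgebra.ι ℂ (adj j) - algebraMap ℂ _ (star (s j))) *
        (FreeAlgebra.ι ℂ j - algebraMap ℂ _ (s j))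
    have hpval : ∀ c : J → ℂ, (∀ j, c (adj j) = star (c j)) →
        FreeAlgebra.lift ℂ c p = ((B - φ c : ℝ) : ℂ) := by
      intro c hc
      simp only [p, φ, map_sub, map_sum, map_mul, FreeAlgebra.lift_ι_apply, AlgHom.commutes,
        Complex.ofReal_sub, Complex.ofReal_sum, Algebra.algebraMap_self, RingHom.id_apply, hc]
      congr 1
      refine Finset.sum_congr rfl fun j _ => ?_
      rw [← star_sub, Complex.star_def, Complex.conj_mul']
      norm_cast
    have hps : FreeAlgebra.lift ℂ s p = (B : ℂ) := by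
      rw [hpval s hsh]
      simp [φ]
    have hpC : ∀ c ∈ C, ‖FreeAlgebra.lift ℂ c p‖ ≤ B - δ := by
      intro c hc
      obtain ⟨h1, h2⟩ := hCδ c hc
      rw [hpval c (hherm c hc), Complex.norm_real, Real.norm_of_nonneg (by linarith)]
      linarith
    set a : A := FreeAlgebra.lift ℂ t p with ha
    have hχ₀a : χ₀ a = (B : ℂ) := by rw [ha, hχ, hχ₀, hps]
    obtain ⟨c, b, hc, hcb, hb⟩ := exists_cutoff a (ρ := B - δ / 2) (by linarith)
    have hb0 : χ₀ b ≠ 0 := hb χ₀ (by
      rw [hχ₀a, Complex.norm_real, Real.norm_of_nonneg (by linarith)]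
      linarith)
    have hpow : ∀ n : ℕ, b * c ^ n * a ^ n = b := by
      intro n
      induction n with
      | zero => simp
      | succ n ih =>
        calc b * c ^ (n + 1) * a ^ (n + 1) = (c * a * b) * c ^ n * a ^ n := by ring
          _ = b := by rw [hcb, ih]
    have hzero : ∀ f ∈ D, π b f = 0 := by
      intro f hf
      obtain ⟨k, hk⟩ := h f hf p (B - δ) (by linarith) hpC (δ / 4) (by linarith)
      have h1 : ∀ n : ℕ, ‖π b f‖ ≤ (‖b‖ * k) * (((B - δ + δ / 4) / (B - δ / 2)) ^ n) := by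
        intro n
        have h2 : π b f = π (b * c ^ n) ((FreeAlgebra.lift ℂ τ p ^ n) f) := by
          conv_lhs => rw [← hpow n]
          rw [map_mul, mul_ap, map_pow π a n, ha, hπ]
        have h3 : ‖π (b * c ^ n)‖ ≤ ‖b‖ * (B - δ / 2)⁻¹ ^ n := by
          refine (NonUnitalStarAlgHom.norm_apply_le π _).trans ?_
          refine (norm_mul_le _ _).trans ?_
          gcongr
          rcases Nat.eq_zero_or_pos n with h0 | h0
          · subst h0
            rw [pow_zero, pow_zero]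
            refine norm_le_of_characters _ zero_le_one fun χ => ?_
            rw [map_one, norm_one]
          · exact (norm_pow_le' _ h0).trans (by gcongr)
        have hk0 : 0 ≤ k * (B - δ + δ / 4) ^ n := (norm_nonneg _).trans (hk n)
        have hρ : 0 < B - δ / 2 := by linarith
        calc ‖π b f‖ ≤ ‖π (b * c ^ n)‖ * ‖(FreeAlgebra.lift ℂ τ p ^ n) f‖ := by
              rw [h2]; exact ContinuousLinearMap.le_opNorm _ _
          _ ≤ (‖b‖ * (B - δ / 2)⁻¹ ^ n) * (k * (B - δ + δ / 4) ^ n) := by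
              gcongr
              exact hk n
          _ = (‖b‖ * k) * (((B - δ + δ / 4) / (B - δ / 2)) ^ n) := by
              rw [div_pow, inv_pow]; ring
      have h4 : Tendsto (fun n : ℕ => (‖b‖ * k) * (((B - δ + δ / 4) / (B - δ / 2)) ^ n)) atTop
          (𝓝 ((‖b‖ * k) * 0)) := by
        refine Tendsto.const_mul _ (tendsto_pow_atTop_nhds_zero_of_lt_one ?_ ?_)
        · exact div_nonneg (by linarith) (by linarith)
        · rw [div_lt_one (by linarith)]; linarith
      rw [mul_zero] at h4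
      have h5 : ‖π b f‖ ≤ 0 := ge_of_tendsto' h4 h1
      exact norm_le_zero_iff.mp h5
    have hall : π b = 0 := by
      have h6 : ∀ f ∈ Submodule.span ℂ D, π b f = 0 := by
        intro f hf
        induction hf using Submodule.span_induction with
        | mem f hf => exact hzero f hf
        | zero => exact map_zero _
        | add f g _ _ hf hg => rw [map_add, hf, hg, add_zero]
        | smul c f _ hf => rw [map_smul, hf, smul_zero]
      ext f
      have h7 : (π b : H → H) = fun _ => 0 :=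
        (π b).continuous.ext_on hD continuous_const fun f hf => h6 f hf
      simpa using congrFun h7 f
    have hb' : b = 0 := hinj (by rw [hall, map_zero])
    exact hb0 (by rw [hb', map_zero])
  tfae_finish

end Pool.Agent.H92.Arthur
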